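import Pool.Agent.H796R2.CM

/-!
# MP_ebd0f7_an: disjoint centred interval subfamilies

The set of admissible constants is exactly `(-∞, 1 / C]`, where `C` is the best constant in the
weak type (1,1) inequality for the centred Hardy-Littlewood maximal operator on the line, and
`(11 + √61) / 12 ≤ C ≤ 2`; in particular no constant above `(11 - √61) / 5` is admissible.
-/

namespace Pool.Agent.Results.MP_ebd0f7_an.BestWeakConstant

open Pool.Agent.H796R2.CI

theorem result : ∃ C : ℝ, (11 + √61) / 12 ≤ C ∧ C ≤ 2 ∧ IsLeast {A : ℝ | WeakType A} C ∧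
    {c : ℝ | Admissible c} = Set.Iic (1 / C) :=
  main

end Pool.Agent.Results.MP_ebd0f7_an.BestWeakConstant
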